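import Mathlib

/-!
Picard inclusion: existence of a solution in a tube around an approximate solution.
-/

set_option autoImplicit false

namespace Pool.Agent.HM.H13

open Set

variable {n : ℕ}

/-- the tube at time `t` -/
def Tube (xh : ℝ → Fin n → ℝ) (ρ : Fin n → ℝ) (t : ℝ) : Set (Fin n → ℝ) :=
  {x | ∀ i, |x i - xh t i| ≤ ρ i}

/-- projection to the tube -/
noncomputable def prj (xh : ℝ → Fin n → ℝ) (ρ : Fin n → ℝ) (t : ℝ) (x : Fin n → ℝ) : Fin n → ℝ :=
  fun i => max (xh t i - ρ i) (min (xh t i + ρ i) (x i))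

lemma prj_mem {xh : ℝ → Fin n → ℝ} {ρ : Fin n → ℝ} (hρ : ∀ i, 0 ≤ ρ i) (t : ℝ) (x : Fin n → ℝ) :
    prj xh ρ t x ∈ Tube xh ρ t := by
  intro i
  have h := hρ i
  rw [abs_le]
  unfold prj
  constructor
  · have := le_max_left (xh t i - ρ i) (min (xh t i + ρ i) (x i))
    linarith
  · have h1 : max (xh t i - ρ i) (min (xh t i + ρ i) (x i)) ≤ xh t i + ρ i :=
      max_le (by linarith) (min_le_left _ _)
    linarith

lemma prj_eq {xh : ℝ → Fin n → ℝ} {ρ : Fin n → ℝ} {t : ℝ} {x : Fin n → ℝ}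
    (hx : x ∈ Tube xh ρ t) : prj xh ρ t x = x := by
  ext i
  have h := abs_le.1 (hx i)
  unfold prj
  rw [min_eq_right (by linarith [h.2]), max_eq_right (by linarith [h.1])]

lemma prj_lip (xh : ℝ → Fin n → ℝ) (ρ : Fin n → ℝ) (t : ℝ) (x y : Fin n → ℝ) :
    ‖prj xh ρ t x - prj xh ρ t y‖ ≤ ‖x - y‖ := by
  rw [pi_norm_le_iff_of_nonneg (norm_nonneg _)]
  intro i
  have h1 : ‖(prj xh ρ t x - prj xh ρ t y) i‖ ≤ |x i - y i| := by
    rw [Pi.sub_apply, Real.norm_eq_abs]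
    unfold prj
    have h0 := abs_max_sub_max_le_max (xh t i - ρ i) (min (xh t i + ρ i) (x i))
      (xh t i - ρ i) (min (xh t i + ρ i) (y i))
    rw [sub_self, abs_zero, max_eq_right (abs_nonneg (min (xh t i + ρ i) (x i) -
      min (xh t i + ρ i) (y i)))] at h0
    have h1 := abs_min_sub_min_le_max (xh t i + ρ i) (x i) (xh t i + ρ i) (y i)
    rw [sub_self, abs_zero, max_eq_right (abs_nonneg _)] at h1
    exact h0.trans h1
  have h2 : |x i - y i| ≤ ‖x - y‖ := by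
    have := norm_le_pi_norm (x - y) i
    rwa [Pi.sub_apply, Real.norm_eq_abs] at this
  exact h1.trans h2

lemma tube_convex (xh : ℝ → Fin n → ℝ) (ρ : Fin n → ℝ) (t : ℝ) : Convex ℝ (Tube xh ρ t) := by
  have : Tube xh ρ t = Set.pi Set.univ (fun i => Icc (xh t i - ρ i) (xh t i + ρ i)) := by
    ext x
    simp only [Tube, mem_ofPred_eq, Set.mem_pi, Set.mem_univ, forall_true_left, mem_Icc, abs_le]
    refine forall_congr' fun i => ?_
    constructor
    · rintro ⟨h1, h2⟩; constructor <;> linarith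
    · rintro ⟨h1, h2⟩; constructor <;> linarith
  rw [this]
  exact convex_pi fun i _ => convex_Icc _ _

lemma tube_compact {xh : ℝ → Fin n → ℝ} (ρ : Fin n → ℝ) {a b : ℝ}
    (hc : ContinuousOn xh (Icc a b)) :
    IsCompact {x : Fin n → ℝ | ∃ t ∈ Icc a b, x ∈ Tube xh ρ t} := by
  have h1 : {x : Fin n → ℝ | ∃ t ∈ Icc a b, x ∈ Tube xh ρ t} =
      (fun p : ℝ × (Fin n → ℝ) => xh p.1 + p.2) '' (Icc a b ×ˢ Set.pi Set.univ
        (fun i => Icc (-ρ i) (ρ i))) := by
    ext x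
    constructor
    · rintro ⟨t, ht, hx⟩
      refine ⟨(t, x - xh t), ⟨ht, ?_⟩, ?_⟩
      · intro i _
        have := abs_le.1 (hx i)
        exact ⟨this.1, this.2⟩
      · show xh t + (x - xh t) = x
        abel
    · rintro ⟨⟨t, y⟩, ⟨ht, hy⟩, rfl⟩
      refine ⟨t, ht, ?_⟩
      intro i
      have := hy i (Set.mem_univ i)
      show |xh t i + y i - xh t i| ≤ ρ i
      rw [add_sub_cancel_left, abs_le]
      exact this
  rw [h1]
  refine IsCompact.image_of_continuousOn ?_ ?_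
  · exact isCompact_Icc.prod (isCompact_univ_pi fun i => isCompact_Icc)
  · refine ContinuousOn.add ?_ continuousOn_snd
    exact hc.comp continuousOn_fst (fun p hp => hp.1)

/-- Picard inclusion on an interval `[a, b]` -/
theorem picInc_gen (G : (Fin n → ℝ) → (Fin n → ℝ)) (Ω : Set (Fin n → ℝ)) (hΩ : IsOpen Ω)
    (hG : ContDiffOn ℝ 1 G Ω) (a b : ℝ) (hab : a ≤ b)
    (xh xd : ℝ → Fin n → ℝ) (ρ β μ : Fin n → ℝ) (hρ : ∀ i, 0 ≤ ρ i)
    (hxh : ∀ t ∈ Icc a b, HasDerivWithinAt xh (xd t) (Icc a b) t)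
    (hT : ∀ t ∈ Icc a b, ∀ x : Fin n → ℝ, (∀ i, |x i - xh t i| ≤ ρ i) →
        x ∈ Ω ∧ ∀ i, |G x i - xd t i| ≤ β i)
    (hμ : ∀ i, μ i + (b - a) * β i ≤ ρ i) (x0 : Fin n → ℝ) (hx0 : ∀ i, |x0 i - xh a i| ≤ μ i) :
    ∃ x : ℝ → Fin n → ℝ, x a = x0 ∧
      ∀ t ∈ Icc a b, HasDerivWithinAt x (G (x t)) (Icc a b) t ∧
        ∀ i, |x t i - xh t i| ≤ μ i + (t - a) * β i := by
  have hca : ContinuousOn xh (Icc a b) := fun t ht => (hxh t ht).continuousWithinAt
  set K : Set (Fin n → ℝ) := {x | ∃ t ∈ Icc a b, x ∈ Tube xh ρ t} with hK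
  have hKc : IsCompact K := tube_compact ρ hca
  have hKΩ : K ⊆ Ω := by
    rintro x ⟨t, ht, hx⟩
    exact (hT t ht x hx).1
  have hpK : ∀ t ∈ Icc a b, ∀ x, prj xh ρ t x ∈ K := fun t ht x => ⟨t, ht, prj_mem hρ t x⟩
  obtain ⟨L0, hL0⟩ := hKc.exists_bound_of_continuousOn (hG.continuousOn.mono hKΩ)
  obtain ⟨C0, hC0⟩ := hKc.exists_bound_of_continuousOn
    ((hG.continuousOn_fderiv_of_isOpen hΩ le_rfl).mono hKΩ)
  have hβ : ∀ i, 0 ≤ β i := by
    intro i
    have hm : xh a ∈ Tube xh ρ a := by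
      intro j
      rw [sub_self, abs_zero]
      exact hρ j
    exact le_trans (abs_nonneg _) ((hT a (left_mem_Icc.2 hab) _ hm).2 i)
  -- the modified field
  set f : ℝ → (Fin n → ℝ) → (Fin n → ℝ) := fun t x => G (prj xh ρ t x) with hf
  have hLip : ∀ t ∈ Icc a b, ∀ x y, ‖f t x - f t y‖ ≤ (Real.toNNReal C0 : ℝ) * ‖x - y‖ := by
    intro t ht x y
    have h1 : ‖G (prj xh ρ t x) - G (prj xh ρ t y)‖ ≤
        (Real.toNNReal C0 : ℝ) * ‖prj xh ρ t x - prj xh ρ t y‖ := by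
      refine Convex.norm_image_sub_le_of_norm_fderiv_le (𝕜 := ℝ) (s := Tube xh ρ t) ?_ ?_
        (tube_convex xh ρ t) (prj_mem hρ t y) (prj_mem hρ t x)
      · intro z hz
        have hzΩ : z ∈ Ω := (hT t ht z hz).1
        exact (hG.differentiableOn one_ne_zero).differentiableAt (hΩ.mem_nhds hzΩ)
      · intro z hz
        exact (hC0 z ⟨t, ht, hz⟩).trans (Real.le_coe_toNNReal C0)
    refine h1.trans ?_
    exact mul_le_mul_of_nonneg_left (prj_lip xh ρ t x y) (NNReal.coe_nonneg _)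
  have hPL : IsPicardLindelof f (tmin := a) (tmax := b) ⟨a, left_mem_Icc.2 hab⟩ x0
      (Real.toNNReal L0 * Real.toNNReal (b - a)) 0 (Real.toNNReal L0) (Real.toNNReal C0) := by
    constructor
    · intro t ht
      refine LipschitzOnWith.of_dist_le_mul ?_
      intro x _ y _
      rw [dist_eq_norm, dist_eq_norm]
      exact hLip t ht x y
    · intro x _
      refine ContinuousOn.comp (t := K) (hG.continuousOn.mono hKΩ) ?_ (fun t ht => hpK t ht x)
      refine continuousOn_pi.2 fun i => ?_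
      unfold prj
      have hci : ContinuousOn (fun t => xh t i) (Icc a b) := (continuousOn_pi.1 hca) i
      have hc1 : ContinuousOn (fun t => xh t i - ρ i) (Icc a b) := hci.sub continuousOn_const
      have hc2 : ContinuousOn (fun t => xh t i + ρ i) (Icc a b) := hci.add continuousOn_const
      exact hc1.sup (hc2.inf continuousOn_const)
    · intro t ht x _
      exact (hL0 _ (hpK t ht x)).trans (Real.le_coe_toNNReal L0)
    · rw [NNReal.coe_mul, NNReal.coe_zero, sub_zero]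
      refine mul_le_mul_of_nonneg_left ?_ (NNReal.coe_nonneg _)
      rw [Real.coe_toNNReal _ (by linarith)]
      exact max_le le_rfl (by simp [hab])
  obtain ⟨x, hxa, hx⟩ := hPL.exists_eq_forall_mem_Icc_hasDerivWithinAt₀
  have hbound : ∀ t ∈ Icc a b, ∀ i, |x t i - xh t i| ≤ μ i + (t - a) * β i := by
    intro t ht i
    have hd : ∀ s ∈ Icc a b, HasDerivWithinAt (fun s => x s i - xh s i)
        (f s (x s) i - xd s i) (Icc a b) s := by
      intro s hs
      exact ((hasDerivWithinAt_pi.1 (hx s hs)) i).sub ((hasDerivWithinAt_pi.1 (hxh s hs)) i)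
    have hbd : ∀ s ∈ Icc a b, ‖f s (x s) i - xd s i‖ ≤ β i := by
      intro s hs
      rw [Real.norm_eq_abs]
      exact (hT s hs _ (prj_mem hρ s (x s))).2 i
    have h1 := (convex_Icc a b).norm_image_sub_le_of_norm_hasDerivWithin_le hd hbd
      (left_mem_Icc.2 hab) ht
    rw [Real.norm_eq_abs, Real.norm_eq_abs, abs_of_nonneg (by linarith [ht.1] : 0 ≤ t - a)] at h1
    have h2 : x a i = x0 i := by
      have := congrFun hxa i
      exact this
    have h3 := hx0 i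
    rw [← h2] at h3
    have h4 : |x t i - xh t i| ≤ |x t i - xh t i - (x a i - xh a i)| + |x a i - xh a i| := by
      have := abs_add_le (x t i - xh t i - (x a i - xh a i)) (x a i - xh a i)
      rwa [sub_add_cancel] at this
    have h5 : β i * (t - a) = (t - a) * β i := mul_comm _ _
    linarith
  refine ⟨x, hxa, ?_⟩
  intro t ht
  refine ⟨?_, hbound t ht⟩
  have hmem : x t ∈ Tube xh ρ t := by
    intro i
    have h1 := hbound t ht i
    have h2 := hμ i
    have h3 : (t - a) * β i ≤ (b - a) * β i :=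
      mul_le_mul_of_nonneg_right (by linarith [ht.2]) (hβ i)
    linarith
  have h1 := hx t ht
  have h2 : f t (x t) = G (x t) := by
    show G (prj xh ρ t (x t)) = G (x t)
    rw [prj_eq hmem]
  rwa [h2] at h1

/-- `PicIncStmt` with the additional hypothesis that the radii are nonnegative -/
theorem picInc :
    ∀ (G : (Fin 8 → ℝ) → (Fin 8 → ℝ)) (Ω : Set (Fin 8 → ℝ)), IsOpen Ω → ContDiffOn ℝ 1 G Ω →
    ∀ (xh xd : ℝ → Fin 8 → ℝ) (ρ β μ : Fin 8 → ℝ), (∀ i, 0 ≤ ρ i) →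
      (∀ t ∈ Icc (-1 : ℝ) 1, HasDerivAt xh (xd t) t) → ContinuousOn xd (Icc (-1) 1) →
      (∀ t ∈ Icc (-1 : ℝ) 1, ∀ x : Fin 8 → ℝ, (∀ i, |x i - xh t i| ≤ ρ i) →
        x ∈ Ω ∧ ∀ i, |G x i - xd t i| ≤ β i) →
      (∀ i, μ i + 2 * β i ≤ ρ i) →
      ∀ x0 : Fin 8 → ℝ, (∀ i, |x0 i - xh (-1) i| ≤ μ i) →
        ∃ x : ℝ → Fin 8 → ℝ, x (-1) = x0 ∧
          ∀ t ∈ Icc (-1 : ℝ) 1, HasDerivWithinAt x (G (x t)) (Icc (-1) 1) t ∧
            ∀ i, |x t i - xh t i| ≤ ρ i := by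
  intro G Ω hΩ hG xh xd ρ β μ hρ hxh _ hT hμ x0 hx0
  have hβ : ∀ i, 0 ≤ β i := by
    intro i
    have hm : ∀ j, |xh (-1) j - xh (-1) j| ≤ ρ j := by
      intro j
      rw [sub_self, abs_zero]
      exact hρ j
    exact le_trans (abs_nonneg _) ((hT (-1) (by norm_num) _ hm).2 i)
  obtain ⟨x, hxa, hx⟩ := picInc_gen G Ω hΩ hG (-1) 1 (by norm_num) xh xd ρ β μ hρ
    (fun t ht => (hxh t ht).hasDerivWithinAt) hT (fun i => by have := hμ i; linarith) x0 hx0
  refine ⟨x, hxa, fun t ht => ⟨(hx t ht).1, fun i => ?_⟩⟩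
  have h1 := (hx t ht).2 i
  have h2 := hμ i
  have h3 : (t - -1) * β i ≤ 2 * β i :=
    mul_le_mul_of_nonneg_right (by linarith [ht.2]) (hβ i)
  linarith

end Pool.Agent.HM.H13
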